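import Pool.Agent.J4.H77.DP.All

set_option autoImplicit false

/-! # Hadwiger's conjecture holds for all direct products

In the direct product `G × H` (also called tensor or categorical product) two pairs are adjacent if
they are adjacent in both coordinates.  The chromatic number of `G × H` is at most that of `G` and
that of `H`; by the counterexamples to Hedetniemi's conjecture it may be smaller than both.

If `G × H` is not `k`-colourable, then `K_(k+1)` is a minor of `G × H`.  There is no assumption on the
graphs `G` and `H`.

Proof.  Neither `G` nor `H` is `k`-colourable.  So a vertex `g` of `G` has `k` neighbours `g_i` and a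
vertex `h` of `H` has `k` neighbours `h_j`.  All the vertices `(g, h_j)` are adjacent to all the
vertices `(g_i, h)`, so `G × H` contains the complete bipartite graph with `k` vertices on each side,
and this graph has a minor `K_(k+1)`. -/

namespace Pool.Agent.Results.MP_b47bfb_co.AllDirectProducts

/-- `K_m` is a minor of `G`. -/
def HasCliqueMinor {V : Type} (G : SimpleGraph V) (m : ℕ) : Prop :=
  ∃ B : Fin m → Set V, (∀ i, (G.induce (B i)).Connected) ∧
    (∀ i j, i ≠ j → Disjoint (B i) (B j)) ∧
    ∀ i j, i ≠ j → ∃ u ∈ B i, ∃ v ∈ B j, G.Adj u v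

/-- The direct product: `(g, h)` and `(g', h')` are adjacent if `g` and `g'` are adjacent in `G` and
`h` and `h'` are adjacent in `H`. -/
def directProduct {V W : Type} (G : SimpleGraph V) (H : SimpleGraph W) :
    SimpleGraph (V × W) where
  Adj x y := G.Adj x.1 y.1 ∧ H.Adj x.2 y.2
  symm := ⟨fun _ _ h => ⟨h.1.symm, h.2.symm⟩⟩
  loopless := ⟨fun _ h => h.1.ne rfl⟩

/-- **Hadwiger's conjecture for direct products.** Let `G` and `H` be any graphs.  If the direct
product of `G` and `H` is not `k`-colourable, then `K_(k+1)` is a minor of it. -/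
theorem result {V W : Type} (G : SimpleGraph V) (H : SimpleGraph W) (k : ℕ)
    (hk : ¬ (directProduct G H).Colorable k) : HasCliqueMinor (directProduct G H) (k + 1) := by
  have hG : ¬ G.Colorable k := by
    rintro ⟨c⟩
    exact hk ⟨SimpleGraph.Coloring.mk (fun x => c x.1) (fun {x y} h => c.valid h.1)⟩
  have hH : ¬ H.Colorable k := by
    rintro ⟨c⟩
    exact hk ⟨SimpleGraph.Coloring.mk (fun x => c x.2) (fun {x y} h => c.valid h.2)⟩
  obtain ⟨g, f, hf, hgf⟩ := Pool.Agent.J4.H77.DP.exists_star G k hG
  obtain ⟨h, e, he, hhe⟩ := Pool.Agent.J4.H77.DP.exists_star H k hH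
  rcases Nat.eq_zero_or_pos k with rfl | hpos
  · refine ⟨fun _ => {(g, h)}, fun _ => Pool.Agent.J4.H77.DP.conn_one _ _, ?_, ?_⟩
    · intro i j hij
      exact absurd (Fin.ext (by omega)) hij
    · intro i j hij
      exact absurd (Fin.ext (by omega)) hij
  · exact Pool.Agent.J4.H77.DP.minor_of_biclique (directProduct G H) k
      (fun j => (g, e j)) (fun i => (f i, h))
      (fun i j hij => he (Prod.ext_iff.1 hij).2) (fun i j hij => hf (Prod.ext_iff.1 hij).1)
      (fun i j => ⟨hgf j, (hhe i).symm⟩) hpos

end Pool.Agent.Results.MP_b47bfb_co.AllDirectProducts
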