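import Pool.Agent.J4.H77.CV.Main

set_option autoImplicit false

/-! # Hadwiger's conjecture for the complements of covering graphs

Let `P` be a covering graph of a finite graph `T` with `k` sheets, and let `G` be the complement of `P`.
For `k = 1` the graph `G` is an arbitrary graph.  We prove Hadwiger's conjecture for `G`, and so the
question Q1, if

* `k` is even (no condition on `T`), or
* `k ≥ 3`, and every edge of `T` lies in fewer than `2 k (k - 2)` triangles; in particular for all
  triangle-free `T` and all `k ≥ 2`, for all `T` whose edges lie in at most `5` triangles and all
  `k ≥ 2`.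

For example let `G` be a graph with an automorphism `t` of order two such that all `{x, t x}` are
dominating edges (every other vertex is adjacent to `x` or to `t x`).  Then the complement of `G` is a
covering graph with `k = 2` sheets of the graph of the orbits of `t`.

Proof.  Let `M` be a maximum matching of `T`, and `U` the set of the unmatched vertices.  The fibres over
the ends of an edge of `M` are joined by a perfect matching of `P`; its edges and the single vertices over
`U` are the colour classes of a colouring of `G` with `k (|T| - |M|)` colours.  A vertex of `P` has at
most one neighbour in each fibre, so two vertices of the same fibre form a dominating edge of `G`.  If `k`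
is even, then the fibres over matched vertices are divided into such pairs; together with the vertices
over `U`, which form a clique of `G`, they are the branch sets of a clique minor with
`k (|T| - |M|)` branch sets.  If `k` is odd, then one vertex is left in each fibre over a matched vertex.
For every edge of `M` the two left vertices form one more branch set.  They have to be nonadjacent in
`P` and without a common neighbour over `U` (as `M` is maximum, at most one unmatched vertex is adjacent to
both ends of an edge of `M`), and for two edges of `M` the two left pairs must not be completely joined in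
`P`.  The pairs are chosen one after another: at most `k + k + t` of the `k ^ 2` pairs are excluded, where
`2 t` is at most the number of triangles at the edge. -/

namespace Pool.Agent.Results.MP_b47bfb_co.ComplementsOfCoverings

/-- `K_m` is a minor of `G`: there are `m` pairwise disjoint vertex sets inducing connected subgraphs,
any two of them joined by an edge. -/
def HasCliqueMinor {V : Type} (G : SimpleGraph V) (m : ℕ) : Prop :=
  ∃ B : Fin m → Set V, (∀ i, (G.induce (B i)).Connected) ∧
    (∀ i j, i ≠ j → Disjoint (B i) (B j)) ∧
    ∀ i j, i ≠ j → ∃ u ∈ B i, ∃ v ∈ B j, G.Adj u v

/-- `f` is a covering map from the graph `P` to the graph `T` with `k` sheets: it maps adjacent vertices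
to adjacent vertices, every vertex `p` of `P` has exactly one neighbour over each neighbour of `f p`, and
every vertex of `T` has exactly `k` preimages. -/
def IsCovering {V W : Type} (P : SimpleGraph W) (T : SimpleGraph V) (k : ℕ) (f : W → V) : Prop :=
  (∀ p q, P.Adj p q → T.Adj (f p) (f q)) ∧
    (∀ p v, T.Adj (f p) v → ∃! q, f q = v ∧ P.Adj p q) ∧
    ∀ v, {p | f p = v}.ncard = k

/-- **Hadwiger's conjecture for complements of covering graphs.**  Let the finite graph `P` be a covering
graph of `T` with `k` sheets.  Let `k` be even, or let `k ≥ 3` and let every edge of `T` lie in fewer than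
`2 k (k - 2)` triangles.  If the complement of `P` is not `m`-colourable, then `K_(m+1)` is a minor of
it. -/
theorem result {V W : Type} [Finite V] [Finite W] (T : SimpleGraph V) (P : SimpleGraph W)
    (f : W → V) (k : ℕ) (hf : IsCovering P T k f)
    (h : Even k ∨ (3 ≤ k ∧ ∀ u v, T.Adj u v →
      {w | T.Adj u w ∧ T.Adj v w}.ncard < 2 * k * (k - 2)))
    (m : ℕ) (hm : ¬ Pᶜ.Colorable m) : HasCliqueMinor Pᶜ (m + 1) := by
  obtain ⟨h1, h2, h3⟩ := hf
  have h3' : ∀ v, Nat.card {p // f p = v} = k := by
    intro v
    rw [← h3 v]
    exact Nat.card_coe_set_eq _
  obtain ⟨n, hn1, B, hB1, hB2, hB3⟩ : ∃ n : ℕ, Pᶜ.Colorable n ∧ Pool.Agent.J4.H77.CV.HM Pᶜ n := by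
    rcases h with h | ⟨hk, h⟩
    · refine Pool.Agent.J4.H77.CV.main T P f k (Nat.card V) h1 h2 h3' ?_ (Or.inl h)
      intro u v _
      rw [← Set.ncard_univ]
      exact Set.ncard_le_ncard (Set.subset_univ _) (Set.toFinite _)
    · have hpos : 0 < 2 * k * (k - 2) := by
        have : 0 < k - 2 := by omega
        positivity
      refine Pool.Agent.J4.H77.CV.main T P f k (2 * k * (k - 2) - 1) h1 h2 h3' ?_ (Or.inr ?_)
      · intro u v huv
        have := h u v huv
        omega
      · rw [← mul_assoc]
        omega
  have hmn : m + 1 ≤ n := by
    by_contra hlt
    exact hm (hn1.mono (by omega))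
  exact ⟨fun i => B (Fin.castLE hmn i), fun i => hB1 _,
    fun i j hij => hB2 _ _ (fun h => hij (Fin.castLE_injective hmn h)),
    fun i j hij => hB3 _ _ (fun h => hij (Fin.castLE_injective hmn h))⟩

end Pool.Agent.Results.MP_b47bfb_co.ComplementsOfCoverings
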