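import Pool.Agent.J4.H77.CV.Bip

set_option autoImplicit false

/-! # Hadwiger's conjecture for graphs of independence number two whose complement is a direct product

In the direct product `T × H` (also called tensor or categorical product) two pairs are adjacent if
they are adjacent in both coordinates.  Let `T` and `H` be finite graphs such that the complement `G` of
`T × H` has no three pairwise nonadjacent vertices.  Then Hadwiger's conjecture holds for `G`.

The condition on `G` says that `T × H` has no triangle, that is, that one of the factors has no triangle.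
The other factor is arbitrary.

Proof.  Let `T` be triangle-free, let `M` and `N` be maximal matchings of `T` and `H`, `X` and `Y` the sets
of the matched vertices, and `U` and `Z` the independent sets of the unmatched ones.  For `uv ∈ M` and
`y ∈ Y` the vertices `(u, y)` and `(v, y)` are adjacent in `G`, and every other vertex of `G` is adjacent
to one of them, as `u` and `v` have no common neighbour.  This gives `|X| |Y| / 2` branch sets, and
`G[X × Y]` has a colouring with as many colours, with the classes `{(u, y), (v, y')}`, `uv ∈ M`, `yy' ∈ N`.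
The other vertices are in `U × V(H)` or in `V(T) × Z`, which are independent sets of `T × H`, so they
induce the complement of a bipartite graph in `G`.  It has a clique with as many vertices as it needs
colours (Kőnig), and the vertices of this clique are the other branch sets. -/

namespace Pool.Agent.Results.MP_b47bfb_co.ComplementsOfDirectProducts

/-- `K_m` is a minor of `G`: there are `m` pairwise disjoint vertex sets inducing connected subgraphs,
any two of them joined by an edge. -/
def HasCliqueMinor {V : Type} (G : SimpleGraph V) (m : ℕ) : Prop :=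
  ∃ B : Fin m → Set V, (∀ i, (G.induce (B i)).Connected) ∧
    (∀ i j, i ≠ j → Disjoint (B i) (B j)) ∧
    ∀ i j, i ≠ j → ∃ u ∈ B i, ∃ v ∈ B j, G.Adj u v

/-- The direct product: `(g, h)` and `(g', h')` are adjacent if `g` and `g'` are adjacent in `G` and
`h` and `h'` are adjacent in `H`. -/
def directProduct {V W : Type} (G : SimpleGraph V) (H : SimpleGraph W) :
    SimpleGraph (V × W) where
  Adj x y := G.Adj x.1 y.1 ∧ H.Adj x.2 y.2
  symm := ⟨fun _ _ h => ⟨h.1.symm, h.2.symm⟩⟩
  loopless := ⟨fun _ h => h.1.ne rfl⟩

/-- `G` has no three distinct pairwise nonadjacent vertices. -/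
def AlphaAtMostTwo {V : Type} (G : SimpleGraph V) : Prop :=
  ∀ x y z : V, x ≠ y → y ≠ z → x ≠ z → G.Adj x y ∨ G.Adj y z ∨ G.Adj x z

/-- **Hadwiger's conjecture for complements of direct products with independence number at most two.**
Let `T` and `H` be finite graphs such that the complement of `T × H` has independence number at most two.
If it is not `m`-colourable, then `K_(m+1)` is a minor of it. -/
theorem result {V W : Type} [Finite V] [Finite W] (T : SimpleGraph V) (H : SimpleGraph W)
    (hα : AlphaAtMostTwo (directProduct T H)ᶜ) (m : ℕ) (hm : ¬ (directProduct T H)ᶜ.Colorable m) :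
    HasCliqueMinor (directProduct T H)ᶜ (m + 1) := by
  -- one of the factors has no triangle
  have hfree : (∀ u v w, T.Adj u v → T.Adj v w → ¬ T.Adj u w) ∨
      (∀ u v w, H.Adj u v → H.Adj v w → ¬ H.Adj u w) := by
    by_contra hcon
    push Not at hcon
    obtain ⟨⟨a, b, c, h1, h2, h3⟩, ⟨a', b', c', h1', h2', h3'⟩⟩ := hcon
    have k1 : (directProduct T H).Adj (a, a') (b, b') := ⟨h1, h1'⟩
    have k2 : (directProduct T H).Adj (b, b') (c, c') := ⟨h2, h2'⟩
    have k3 : (directProduct T H).Adj (a, a') (c, c') := ⟨h3, h3'⟩
    rcases hα (a, a') (b, b') (c, c') k1.ne k2.ne k3.ne with h | h | h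
    · exact ((SimpleGraph.compl_adj _ _ _).1 h).2 k1
    · exact ((SimpleGraph.compl_adj _ _ _).1 h).2 k2
    · exact ((SimpleGraph.compl_adj _ _ _).1 h).2 k3
  obtain ⟨n, hn1, B, hB1, hB2, hB3⟩ : ∃ n : ℕ, (directProduct T H)ᶜ.Colorable n ∧
      Pool.Agent.J4.H77.CV.HM (directProduct T H)ᶜ n := by
    rcases hfree with h | h
    · exact Pool.Agent.J4.H77.CV.main_dp T H h _ (fun _ _ => Iff.rfl)
    · exact Pool.Agent.J4.H77.CV.main_dp' T H h _ (fun _ _ => Iff.rfl)
  have hmn : m + 1 ≤ n := by
    by_contra hlt
    exact hm (hn1.mono (by omega))
  exact ⟨fun i => B (Fin.castLE hmn i), fun i => hB1 _,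
    fun i j hij => hB2 _ _ (fun h => hij (Fin.castLE_injective hmn h)),
    fun i j hij => hB3 _ _ (fun h => hij (Fin.castLE_injective hmn h))⟩

end Pool.Agent.Results.MP_b47bfb_co.ComplementsOfDirectProducts
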