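import Pool.Agent.J4.H99.LBC.Num

set_option autoImplicit false

/-! # Hadwiger's conjecture for graphs with small local biclique cover number

A graph `G` has local biclique cover number at most `r` (bipartite degree at most `r`, Fishburn and
Hammer) if its edges can be covered by complete bipartite subgraphs in such a way that every vertex
is in at most `r` of them; the number of bicliques is not bounded.  Equivalently, `G` is (up to
repeated vertices) the graph of disjointness of a family of subcubes of a cube of any dimension, all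
of codimension at most `r`.  Arc graphs of digraphs, for example shift graphs, have `r = 2`.

(1) If such a graph is not `t`-colourable, then it contains `K_{m,m}` for all
    `m ≤ exp (t / (r 2^r)) / (4 r)`.
(2) So Hadwiger's conjecture holds for it if `t ≥ 4 r² 2^r`: if it is not `t`-colourable, then it has
    a `K_{t+1}` minor.  That is, a graph which is not `t`-colourable and has no `K_{t+1}` minor has
    local biclique cover number greater than `r` as soon as `4 r² 2^r ≤ t`, so at least
    `(1 - o(1)) log₂ t`.  (The local biclique cover number of `K_t` is `log₂ t`, rounded up.)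
(3) For `t ≥ 8 r² 2^r` it contains `K_{t²,t²}`, and so a subdivision of `K_{t+1}` (Hajós' conjecture,
    which is false in general).
(4) More generally let the edges of `G` be covered by `p`-colourable subgraphs without an induced
    matching of `d + 1` edges, every vertex being on edges of at most `r` of them (for `p = 2`,
    `d = 1` these are the difference graphs, and `r` is the local difference cover number).  If
    `G` is not `t`-colourable, then it has a `K_m` minor for all `m ≥ 1` with
    `4 r (p + 1) m ^ d ≤ exp (t / (r (p + 1)^r))`.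
(5) Hence for every `r`, `p`, `d` Hadwiger's conjecture holds for these graphs when `t` is large.

Proof.  If no biclique of the cover contains `K_{k+1,k+1}`, then one side of each of them, the small
side, has at most `k` vertices.  Label the vertices of the `i`-th biclique by `1` on the small side
and by `0` on the other side.  Call two bicliques `i`, `j` in conflict if some vertex is in both of
them with different labels.  As one of the two labels is `1`, the conflict graph has an orientation
with outdegrees at most `k (r - 1)`, and it can be coloured with `N = 2 k (r - 1) + 1` colours.  So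
every vertex defines a partial function from the `N` colours to the labels, with at most `r` values,
and the vertices whose partial functions are extended by one function are independent.  Every partial
function is extended by a proportion of at least `2^{-r}` of the functions; so `t` functions extend
all the at most `(2 N)^r` partial functions if `(2 N)^r (1 - 2^{-r})^t < 1`.  In (4) the small side is
replaced by the vertices of a maximal matching; if this is large then its edges give a clique minor by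
Ramsey's theorem. -/

namespace Pool.Agent.Results.MP_b47bfb_co.LocalBicliqueCovers

/-- `K_m` is a minor of `G`. -/
def HasCliqueMinor {V : Type} (G : SimpleGraph V) (m : ℕ) : Prop :=
  ∃ B : Fin m → Set V, (∀ i, (G.induce (B i)).Connected) ∧
    (∀ i j, i ≠ j → Disjoint (B i) (B j)) ∧
    ∀ i j, i ≠ j → ∃ u ∈ B i, ∃ v ∈ B j, G.Adj u v

/-- `K_{m,m}` is a subgraph of `G`. -/
def HasBiclique {V : Type} (G : SimpleGraph V) (m : ℕ) : Prop :=
  ∃ a b : Fin m → V, Function.Injective a ∧ Function.Injective b ∧ ∀ i j, G.Adj (a i) (b j)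

/-- The edges of `G` are covered by complete bipartite subgraphs with the sides `A i`, `B i`, and
every vertex is in at most `r` of them. -/
def LocalBicliqueCover {V : Type} (G : SimpleGraph V) (r : ℕ) : Prop :=
  ∃ (I : Type) (A B : I → Set V),
    (∀ i, ∀ a ∈ A i, ∀ b ∈ B i, G.Adj a b) ∧
    (∀ u v, G.Adj u v → ∃ i, u ∈ A i ∧ v ∈ B i ∨ v ∈ A i ∧ u ∈ B i) ∧
    ∀ v, {i | v ∈ A i ∨ v ∈ B i}.encard ≤ r

/-- `H` has an induced matching with `q` edges. -/
def HasInducedMatching {V : Type} (H : SimpleGraph V) (q : ℕ) : Prop :=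
  ∃ a b : Fin q → V, (∀ i, H.Adj (a i) (b i)) ∧ ∀ i j, i ≠ j →
    (a i ≠ a j ∧ a i ≠ b j ∧ b i ≠ b j) ∧
    ¬ H.Adj (a i) (a j) ∧ ¬ H.Adj (a i) (b j) ∧ ¬ H.Adj (b i) (b j)

/-- The edges of `G` are covered by `p`-colourable subgraphs `H i` without an induced matching of
`d + 1` edges, and every vertex is on edges of at most `r` of them. -/
def LocalCover {V : Type} (G : SimpleGraph V) (r p d : ℕ) : Prop :=
  ∃ (I : Type) (H : I → SimpleGraph V),
    (∀ i, H i ≤ G) ∧ (∀ u v, G.Adj u v → ∃ i, (H i).Adj u v) ∧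
    (∀ v, {i | ∃ w, (H i).Adj v w}.encard ≤ r) ∧
    (∀ i, (H i).Colorable p) ∧ ∀ i, ¬ HasInducedMatching (H i) (d + 1)

open Pool.Agent.J4.H99.LBC in
lemma biclique_aux {V : Type} [Finite V] (G : SimpleGraph V) (r t m : ℕ) (hr : 1 ≤ r) (hm : 1 ≤ m)
    (hG : LocalBicliqueCover G r) (hcol : ¬ G.Colorable t)
    (h : (4 * r * m : ℝ) ≤ Real.exp ((t : ℝ) / ((r : ℝ) * 2 ^ r))) : HasBiclique G m := by
  obtain ⟨I, A, B, h1, h2, h3⟩ := hG
  have ht : 1 ≤ t := by
    by_contra h0
    have h0' : t = 0 := by omega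
    subst h0'
    simp only [Nat.cast_zero, zero_div, Real.exp_zero] at h
    have hr' : (1 : ℝ) ≤ r := by exact_mod_cast hr
    have hm' : (1 : ℝ) ≤ m := by exact_mod_cast hm
    nlinarith
  obtain ⟨k, rfl⟩ : ∃ k, m = k + 1 := ⟨m - 1, by omega⟩
  obtain ⟨s, rfl⟩ : ∃ s, r = s + 1 := ⟨r - 1, by omega⟩
  have hX : (2 * (k * (s + 1 - 1)) + 1) * 2 ≤ 4 * (s + 1) * (k + 1) := by
    rw [Nat.add_sub_cancel]
    nlinarith
  refine biclique_main G (s + 1) k t A B h1 h2 h3 ?_ hcol
  refine num (Q := 2) (by norm_num) hr ht ?_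
  refine le_trans ?_ h
  have := (Nat.cast_le (α := ℝ)).2 hX
  refine this.trans (le_of_eq ?_)
  push_cast
  ring

open Pool.Agent.J4.H99.LBC in
lemma cover_aux {V : Type} [Finite V] (G : SimpleGraph V) (r p d t m : ℕ) (hr : 1 ≤ r) (hm : 1 ≤ m)
    (hG : LocalCover G r p d) (hcol : ¬ G.Colorable t)
    (h : (4 * r * (p + 1) * (m : ℝ) ^ d) ≤ Real.exp ((t : ℝ) / ((r : ℝ) * ((p : ℝ) + 1) ^ r))) :
    HasCliqueMinor G m := by
  obtain ⟨I, H, h0, h1, h2, h3, h4⟩ := hG
  have hr' : (1 : ℝ) ≤ r := by exact_mod_cast hr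
  have hm' : (1 : ℝ) ≤ m := by exact_mod_cast hm
  have ht : 1 ≤ t := by
    by_contra h0
    have h0' : t = 0 := by omega
    subst h0'
    simp only [Nat.cast_zero, zero_div, Real.exp_zero] at h
    have h5 : (1 : ℝ) ≤ (m : ℝ) ^ d := one_le_pow₀ hm'
    have h6 : (0 : ℝ) ≤ p := Nat.cast_nonneg p
    nlinarith [mul_nonneg h6 (by linarith : (0 : ℝ) ≤ (m : ℝ) ^ d - 1),
      mul_nonneg (by linarith : (0 : ℝ) ≤ (r : ℝ) - 1) h6,
      mul_nonneg (mul_nonneg (by linarith : (0 : ℝ) ≤ (r : ℝ)) (by linarith : (0 : ℝ) ≤ (p : ℝ) + 1))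
        (by linarith : (0 : ℝ) ≤ (m : ℝ) ^ d - 1)]
  obtain ⟨s, rfl⟩ : ∃ s, r = s + 1 := ⟨r - 1, by omega⟩
  obtain ⟨M, hM⟩ : ∃ M, m ^ d = M + 1 := ⟨m ^ d - 1, by
    have := Nat.one_le_pow d m hm
    omega⟩
  have hX : (2 * (2 * (m ^ d - 1) * (s + 1 - 1)) + 1) * (p + 1) ≤ 4 * (s + 1) * (p + 1) * m ^ d := by
    rw [hM, Nat.add_sub_cancel, Nat.add_sub_cancel]
    have : 2 * (2 * M * s) + 1 ≤ 4 * (s + 1) * (M + 1) := by nlinarith
    calc (2 * (2 * M * s) + 1) * (p + 1) ≤ (4 * (s + 1) * (M + 1)) * (p + 1) :=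
          Nat.mul_le_mul_right _ this
      _ = 4 * (s + 1) * (p + 1) * (M + 1) := by ring
  refine general_main G (s + 1) p d m t hm H h0 h1 h2 h3 h4 ?_ hcol
  have h7 := num (Q := p + 1) (r := s + 1) (T := t)
    (X := (2 * (2 * (m ^ d - 1) * (s + 1 - 1)) + 1) * (p + 1)) (by omega) hr ht (by
    have h8 := (Nat.cast_le (α := ℝ)).2 hX
    refine h8.trans (le_trans (le_of_eq ?_) (h.trans (le_of_eq ?_)))
    · push_cast; ring
    · push_cast; ring)
  exact h7

theorem result :
    -- (1) large bicliques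
    (∀ (V : Type) [Finite V] (G : SimpleGraph V) (r t m : ℕ), 1 ≤ r → 1 ≤ m →
      LocalBicliqueCover G r → ¬ G.Colorable t →
      (4 * r * m : ℝ) ≤ Real.exp ((t : ℝ) / ((r : ℝ) * 2 ^ r)) → HasBiclique G m) ∧
    -- (2) Hadwiger's conjecture
    (∀ (V : Type) [Finite V] (G : SimpleGraph V) (r t : ℕ), 1 ≤ r → 4 * r ^ 2 * 2 ^ r ≤ t →
      LocalBicliqueCover G r → ¬ G.Colorable t → HasCliqueMinor G (t + 1)) ∧
    -- (3) a biclique which contains a subdivision of `K_{t+1}`
    (∀ (V : Type) [Finite V] (G : SimpleGraph V) (r t : ℕ), 1 ≤ r → 8 * r ^ 2 * 2 ^ r ≤ t →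
      LocalBicliqueCover G r → ¬ G.Colorable t → HasBiclique G (t ^ 2)) ∧
    -- (4) covers by `p`-colourable graphs without induced matchings of `d + 1` edges
    (∀ (V : Type) [Finite V] (G : SimpleGraph V) (r p d t m : ℕ), 1 ≤ r → 1 ≤ m →
      LocalCover G r p d → ¬ G.Colorable t →
      (4 * r * (p + 1) * (m : ℝ) ^ d) ≤ Real.exp ((t : ℝ) / ((r : ℝ) * ((p : ℝ) + 1) ^ r)) →
      HasCliqueMinor G m) ∧
    -- (5) Hadwiger's conjecture for large chromatic number
    (∀ r p d : ℕ, ∃ t₀ : ℕ, ∀ (V : Type) [Finite V] (G : SimpleGraph V) (t : ℕ), t₀ ≤ t →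
      LocalCover G r p d → ¬ G.Colorable t → HasCliqueMinor G (t + 1)) := by
  refine ⟨?_, ?_, ?_, ?_, ?_⟩
  · intro V _ G r t m hr hm hG hcol h
    exact biclique_aux G r t m hr hm hG hcol h
  · intro V _ G r t hr ht hG hcol
    have ht1 : 1 ≤ t := by
      have : 1 ≤ 4 * r ^ 2 * 2 ^ r := by
        have h1 : 1 ≤ r ^ 2 := Nat.one_le_pow _ _ hr
        have h2 : 1 ≤ 2 ^ r := Nat.one_le_pow _ _ (by norm_num)
        nlinarith
      omega
    obtain ⟨a, b, ha, hb, hab⟩ := biclique_aux G r t t hr ht1 hG hcol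
      (Pool.Agent.J4.H99.LBC.thr1 hr ht)
    obtain ⟨k, rfl⟩ : ∃ k, t = k + 1 := ⟨t - 1, by omega⟩
    exact Pool.Agent.J4.H99.LBC.minor_of_biclique G k a b ha hb hab
  · intro V _ G r t hr ht hG hcol
    have ht1 : 1 ≤ t ^ 2 := by
      have : 1 ≤ 8 * r ^ 2 * 2 ^ r := by
        have h1 : 1 ≤ r ^ 2 := Nat.one_le_pow _ _ hr
        have h2 : 1 ≤ 2 ^ r := Nat.one_le_pow _ _ (by norm_num)
        nlinarith
      exact Nat.one_le_pow _ _ (by omega)
    refine biclique_aux G r t (t ^ 2) hr ht1 hG hcol ?_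
    have := Pool.Agent.J4.H99.LBC.thr2 hr ht
    push_cast
    exact this
  · intro V _ G r p d t m hr hm hG hcol h
    exact cover_aux G r p d t m hr hm hG hcol h
  · intro r p d
    rcases Nat.eq_zero_or_pos r with h0 | hr
    · -- no edges
      refine ⟨1, ?_⟩
      intro V _ G t ht hG hcol
      exfalso
      obtain ⟨I, H, h0', h1, h2, h3, h4⟩ := hG
      apply hcol
      refine ⟨SimpleGraph.Coloring.mk (fun _ => ⟨0, by omega⟩) ?_⟩
      intro u v huv _
      obtain ⟨i, hi⟩ := h1 u v huv
      have h5 := h2 u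
      rw [h0, Nat.cast_zero, nonpos_iff_eq_zero, Set.encard_eq_zero] at h5
      have : i ∈ {i | ∃ w, (H i).Adj u w} := ⟨v, hi⟩
      rw [h5] at this
      exact this
    · obtain ⟨t₀, ht₀⟩ := Pool.Agent.J4.H99.LBC.thr3 r p d hr
      refine ⟨t₀, ?_⟩
      intro V _ G t ht hG hcol
      refine cover_aux G r p d t (t + 1) hr (by omega) hG hcol ?_
      have := ht₀ t ht
      push_cast
      exact this

end Pool.Agent.Results.MP_b47bfb_co.LocalBicliqueCovers
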